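import Pool.Agent.H.MP_ccc55c_co.Defs

set_option autoImplicit false

namespace Pool.Agent.H.MP_ccc55c_co

theorem conn0 {n : ℕ} {G : SimpleGraph (Fin n)} (h : HasP G n) (s t : Fin n) (hst : s ≠ t)
    (X : Fin n → Prop) (hX : ∀ x y, X x → x ≠ s → x ≠ t → G.Adj x y → X y ∨ y = s ∨ y = t)
    (x y : Fin n) (hx : X x) (hy : ¬ X y) (h1 : x ≠ s) (h2 : x ≠ t) (h3 : y ≠ s) (h4 : y ≠ t) :
    False := by
  obtain ⟨l, hn, hc, hh, hl, hlen⟩ := h s t hst
  have hall : ∀ z, z ∈ l := by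
    have : l.toFinset = Finset.univ := by
      apply Finset.eq_univ_of_card
      rw [List.toFinset_card_of_nodup hn, hlen]; simp
    intro z
    rw [← List.mem_toFinset, this]; simp
  obtain ⟨l1, rfl⟩ := List.head?_eq_some_iff.1 hh
  rcases List.eq_nil_or_concat l1 with rfl | ⟨m, t', rfl⟩
  · simp at hl; exact hst hl
  have ht : t' = t := by
    rw [List.concat_eq_append, ← List.cons_append, List.getLast?_concat] at hl
    simpa using hl
  subst ht
  rw [List.concat_eq_append] at *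
  have hm : ∀ z ∈ m, z ≠ s ∧ z ≠ t' := by
    intro z hz
    simp only [List.nodup_cons, List.mem_append, List.nodup_append] at hn
    refine ⟨fun h => hn.1 (Or.inl (h ▸ hz)), hn.2.2.2 z hz t' (by simp)⟩
  have hc2 : m.IsChain G.Adj := hc.tail.left_of_append
  have hc3 : m.IsChain (fun a b => X a ↔ X b) := by
    refine hc2.imp_of_mem_imp fun a b ha hb hab => ?_
    have := hX a b
    have := hX b a
    have := hm a ha
    have := hm b hb
    have := hab.symm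
    grind
  haveI : Trans (fun a b => X a ↔ X b) (fun a b => X a ↔ X b) (fun a b => X a ↔ X b) :=
    ⟨fun h h' => h.trans h'⟩
  rw [List.isChain_iff_pairwise] at hc3
  have hxm : x ∈ m := by have := hall x; simp at this; tauto
  have hym : y ∈ m := by have := hall y; simp at this; tauto
  haveI : Std.Symm (fun a b => X a ↔ X b) := ⟨fun a b h => h.symm⟩
  exact hy ((List.Pairwise.forall_of_forall (R := fun a b => X a ↔ X b) (fun _ _ => Iff.rfl) hc3
    hxm hym).1 hx)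

theorem conn {n : ℕ} {G : SimpleGraph (Fin n)} (h : HasP G n) (hn : 4 ≤ n) (s t : Fin n)
    (X : Fin n → Prop) (hX : ∀ x y, X x → x ≠ s → x ≠ t → G.Adj x y → X y ∨ y = s ∨ y = t)
    (x y : Fin n) (hx : X x) (hy : ¬ X y) (h1 : x ≠ s) (h2 : x ≠ t) (h3 : y ≠ s) (h4 : y ≠ t) :
    False := by
  by_cases hst : s = t
  · subst hst
    obtain ⟨t, ht⟩ : ∃ t, t ∉ ({s, x, y} : Finset (Fin n)) := by
      by_contra hc
      push Not at hc
      have := Finset.card_le_card (fun z _ => hc z : Finset.univ ⊆ _)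
      have := Finset.card_le_three (a := s) (b := x) (c := y)
      simp at *; omega
    simp only [Finset.mem_insert, Finset.mem_singleton, not_or] at ht
    exact conn0 h s t (Ne.symm ht.1) X (fun a b ha h1 _ hab => by have := hX a b ha h1 h1 hab; tauto)
      x y hx hy h1 (Ne.symm ht.2.1) h3 (Ne.symm ht.2.2)
  · exact conn0 h s t hst X hX x y hx hy h1 h2 h3 h4

theorem struct {n : ℕ} {G : SimpleGraph (Fin n)} (h : HasP G n) (hn : 5 ≤ n)
    (P3 : ∀ s t, s ≠ t → ∃ w, G.Adj s w ∧ G.Adj w t) (u v : Fin n) (huv : u ≠ v)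
    (K : ∀ a b x, G.Adj u a → a ≠ v → G.Adj v b → b ≠ u → a ≠ b → G.Adj a x → G.Adj x b →
      x = u ∨ x = v)
    (AB : ∀ a, G.Adj u a → a ≠ v → G.Adj v a) : 11 ≤ n := by
  have sy : ∀ a b, G.Adj a b → G.Adj b a := fun a b h => h.symm
  have ir : ∀ a, ¬ G.Adj a a := fun a => G.irrefl
  have out : ∀ a b c d : Fin n, ∃ z, z ≠ a ∧ z ≠ b ∧ z ≠ c ∧ z ≠ d := by
    intro a b c d
    by_contra hc
    have hc' : ∀ z, z ∈ ({a, b, c, d} : Finset (Fin n)) := by
      intro z; simp only [Finset.mem_insert, Finset.mem_singleton]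
      by_contra h5
      push Not at h5
      exact hc ⟨z, h5⟩
    have := Finset.card_le_card (fun z _ => hc' z : Finset.univ ⊆ _)
    have := Finset.card_le_four (a := a) (b := b) (c := c) (d := d)
    simp at *; omega
  have deg : ∀ y s t, ∃ z, G.Adj y z ∧ z ≠ s ∧ z ≠ t := by
    intro y s t
    by_contra hc
    obtain ⟨s', h1, -⟩ : ∃ s', s' ≠ y ∧ True := by
      obtain ⟨z, hz, -⟩ := out y y y y; exact ⟨z, hz, trivial⟩
    obtain ⟨z, hz⟩ := out y (if s = y then s' else s) (if t = y then s' else t) y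
    exact conn h (by omega) (if s = y then s' else s) (if t = y then s' else t) (fun x => x = y)
      (by grind) y z rfl hz.1 (by grind) (by grind) hz.2.1 hz.2.2.1
  -- R x : x outside B ∪ {u, v}
  have hR : ∀ x, x ≠ u → x ≠ v → ¬ G.Adj v x → ∃ a, G.Adj u a ∧ a ≠ v ∧ G.Adj a x := by
    intro x h1 h2 h3
    obtain ⟨w, h4, h5⟩ := P3 u x (Ne.symm h1)
    exact ⟨w, h4, by grind, h5⟩
  obtain ⟨x0, x1, x2, x3⟩ : ∃ x, x ≠ u ∧ x ≠ v ∧ ¬ G.Adj v x := by
    by_contra hc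
    obtain ⟨a, a1, a2, -⟩ := deg u v v
    obtain ⟨y, y1, y2, y3⟩ := deg a u v
    obtain ⟨w, w1, w2, w3⟩ := deg y v a
    have hy : G.Adj u y := by grind
    obtain ⟨z, hz⟩ := out u v a y
    exact conn h (by omega) u v (fun x => x = a ∨ x = y) (by grind) a z (Or.inl rfl) (by grind)
      (by grind) a2 hz.1 hz.2.1
  have BA : ∀ b, G.Adj v b → b ≠ u → G.Adj u b := by
    intro b b1 b2
    by_contra b3
    obtain ⟨a, a1, a2, a3⟩ := hR x0 x1 x2 x3
    obtain ⟨w, w1, w2⟩ := P3 b x0 (by grind)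
    have nb : ∀ y, G.Adj b y → y = v ∨ G.Adj v y := by
      intro y hy
      by_contra hc
      obtain ⟨a', c1, c2, c3⟩ := hR y (by grind) (by grind) (by grind)
      grind
    have : w = a := by grind
    subst this
    obtain ⟨z, z1, z2, z3⟩ := deg b v w
    grind
  have two : ∀ a, G.Adj u a → a ≠ v → ∃ x y, x ≠ y ∧ (x ≠ u ∧ x ≠ v ∧ ¬ G.Adj v x ∧ G.Adj a x) ∧
      (y ≠ u ∧ y ≠ v ∧ ¬ G.Adj v y ∧ G.Adj a y) := by
    intro a a1 a2
    obtain ⟨x, hx⟩ : ∃ x, x ≠ u ∧ x ≠ v ∧ ¬ G.Adj v x ∧ G.Adj a x := by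
      by_contra hc
      have key : ∀ x, x ≠ u → x ≠ v → ¬ G.Adj v x → ∃ w, G.Adj a w ∧ G.Adj w x ∧ G.Adj v w ∧
          G.Adj u w := by
        intro x h1 h2 h3
        obtain ⟨w, w1, w2⟩ := P3 a x (by grind)
        exact ⟨w, w1, w2, by grind, by grind⟩
      obtain ⟨a', b1, b2, b3, b4⟩ := key x0 x1 x2 x3
      refine conn h (by omega) a' a' (fun x => x ≠ u ∧ x ≠ v ∧ ¬ G.Adj v x) ?_ x0 v ⟨x1, x2, x3⟩
        (by simp) (by grind) (by grind) (by grind) (by grind)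
      intro x y hx _ _ hxy
      obtain ⟨w, c1, c2, c3, c4⟩ := key x hx.1 hx.2.1 hx.2.2
      have : w = a' := by grind
      grind
    obtain ⟨w, w1, w2⟩ := P3 a x (by grind)
    exact ⟨x, w, by grind, hx, by grind⟩
  obtain ⟨a, a1, a2, -⟩ := deg u v v
  obtain ⟨b, b1, b2, b3⟩ := deg u v a
  obtain ⟨c, c1, c2, c3, c4⟩ : ∃ c, G.Adj u c ∧ c ≠ v ∧ c ≠ a ∧ c ≠ b := by
    by_contra hc
    exact conn h (by omega) a b (fun x => x ≠ u ∧ x ≠ v ∧ ¬ G.Adj v x) (by grind) x0 v ⟨x1, x2, x3⟩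
      (by simp) (by grind) (by grind) (by grind) (by grind)
  obtain ⟨p1, p2, p3, p4, p5⟩ := two a a1 a2
  obtain ⟨q1, q2, q3, q4, q5⟩ := two b b1 b2
  obtain ⟨r1, r2, r3, r4, r5⟩ := two c c1 c2
  have va := AB a a1 a2
  have vb := AB b b1 b2
  have vc := AB c c1 c2
  have sep : ∀ a b x y, G.Adj u a → a ≠ v → G.Adj v b → G.Adj u b → a ≠ b →
      (x ≠ u ∧ x ≠ v ∧ ¬ G.Adj v x ∧ G.Adj a x) → (y ≠ u ∧ y ≠ v ∧ ¬ G.Adj v y ∧ G.Adj b y) →
      x ≠ y := by
    intro a b x y h1 h2 h3 h4 h5 h6 h7 e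
    subst e
    have := K a b x h1 h2 h3 (by grind) h5 h6.2.2.2 h7.2.2.2.symm
    tauto
  have hnd : [u, v, a, b, c, p1, p2, q1, q2, r1, r2].Nodup := by
    have := sep a b p1 q1 a1 a2 vb b1 b3.symm p4 q4
    have := sep a b p1 q2 a1 a2 vb b1 b3.symm p4 q5
    have := sep a b p2 q1 a1 a2 vb b1 b3.symm p5 q4
    have := sep a b p2 q2 a1 a2 vb b1 b3.symm p5 q5
    have := sep a c p1 r1 a1 a2 vc c1 c3.symm p4 r4
    have := sep a c p1 r2 a1 a2 vc c1 c3.symm p4 r5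
    have := sep a c p2 r1 a1 a2 vc c1 c3.symm p5 r4
    have := sep a c p2 r2 a1 a2 vc c1 c3.symm p5 r5
    have := sep b c q1 r1 b1 b2 vc c1 c4.symm q4 r4
    have := sep b c q1 r2 b1 b2 vc c1 c4.symm q4 r5
    have := sep b c q2 r1 b1 b2 vc c1 c4.symm q5 r4
    have := sep b c q2 r2 b1 b2 vc c1 c4.symm q5 r5
    have := a1.ne
    have := b1.ne
    have := c1.ne
    have ne : ∀ x y, ¬ G.Adj v x → G.Adj v y → y ≠ x := fun x y h1 h2 e => h1 (e ▸ h2)
    have := ne _ _ p4.2.2.1 va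
    have := ne _ _ p4.2.2.1 vb
    have := ne _ _ p4.2.2.1 vc
    have := ne _ _ p5.2.2.1 va
    have := ne _ _ p5.2.2.1 vb
    have := ne _ _ p5.2.2.1 vc
    have := ne _ _ q4.2.2.1 va
    have := ne _ _ q4.2.2.1 vb
    have := ne _ _ q4.2.2.1 vc
    have := ne _ _ q5.2.2.1 va
    have := ne _ _ q5.2.2.1 vb
    have := ne _ _ q5.2.2.1 vc
    have := ne _ _ r4.2.2.1 va
    have := ne _ _ r4.2.2.1 vb
    have := ne _ _ r4.2.2.1 vc
    have := ne _ _ r5.2.2.1 va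
    have := ne _ _ r5.2.2.1 vb
    have := ne _ _ r5.2.2.1 vc
    have := p4.1.symm
    have := p5.1.symm
    have := q4.1.symm
    have := q5.1.symm
    have := r4.1.symm
    have := r5.1.symm
    have := p4.2.1.symm
    have := p5.2.1.symm
    have := q4.2.1.symm
    have := q5.2.1.symm
    have := r4.2.1.symm
    have := r5.2.1.symm
    have := a2.symm
    have := b2.symm
    have := c2.symm
    have := b3.symm
    have := c3.symm
    have := c4.symm
    clear sep two BA hR deg out K AB P3 h sy ir ne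
    simp only [List.nodup_cons, List.mem_cons, List.not_mem_nil, List.nodup_nil, not_or,
      not_false_eq_true, and_true, true_and]
    refine ⟨⟨?_, ?_, ?_, ?_, ?_, ?_, ?_, ?_, ?_, ?_⟩, ⟨?_, ?_, ?_, ?_, ?_, ?_, ?_, ?_, ?_⟩,
      ⟨?_, ?_, ?_, ?_, ?_, ?_, ?_, ?_⟩, ⟨?_, ?_, ?_, ?_, ?_, ?_, ?_⟩, ⟨?_, ?_, ?_, ?_, ?_, ?_⟩,
      ⟨?_, ?_, ?_, ?_, ?_⟩, ⟨?_, ?_, ?_, ?_⟩, ⟨?_, ?_, ?_⟩, ⟨?_, ?_⟩, ?_⟩ <;> assumption
  simpa using hnd.length_le_card

theorem neg {n : ℕ} {G : SimpleGraph (Fin n)} (hn : 5 ≤ n) (hn' : n ≤ 10) (h3 : HasP G 3)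
    (h : HasP G n) : HasP G 5 := by
  have P3 : ∀ s t, s ≠ t → ∃ w, G.Adj s w ∧ G.Adj w t := by
    intro s t hst
    obtain ⟨l, -, hc, hh, hl, hlen⟩ := h3 s t hst
    match l, hlen with
    | [a, b, c], _ =>
      simp at hh hl hc
      exact ⟨b, hh ▸ hc.1, hl ▸ hc.2⟩
  intro u v huv
  by_contra hc
  have K : ∀ a b x, G.Adj u a → a ≠ v → G.Adj v b → b ≠ u → a ≠ b → G.Adj a x → G.Adj x b →
      x = u ∨ x = v := by
    intro a b x h1 h2 h3 h4 h5 h6 h7
    by_contra h8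
    refine hc ⟨[u, a, x, b, v], ?_, by simp [h1, h6, h7, h3.symm], rfl, rfl, rfl⟩
    have := h1.ne
    have := h3.ne
    have := h6.ne
    have := h7.ne
    simp only [List.nodup_cons, List.mem_cons, List.not_mem_nil, List.nodup_nil]
    grind
  by_cases AB : ∀ a, G.Adj u a → a ≠ v → G.Adj v a
  · have := struct h hn P3 u v huv K AB; omega
  · push Not at AB
    obtain ⟨a, a1, a2, a3⟩ := AB
    have := struct h hn P3 v u huv.symm (fun b a x h1 h2 h3 h4 h5 h6 h7 =>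
      (K a b x h3 h4 h1 h2 h5.symm h7.symm h6.symm).symm) (fun b b1 b2 => by
        have hab : a ≠ b := by grind
        obtain ⟨w, w1, w2⟩ := P3 a b hab
        rcases K a b w a1 a2 b1 b2 hab w1 w2 with rfl | rfl
        · exact w2
        · exact absurd w1.symm a3)
    omega

end Pool.Agent.H.MP_ccc55c_co
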