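import Pool.Agent.H.MP_ccc55c_co.Defs

set_option autoImplicit false

namespace Pool.Agent.H.MP_ccc55c_co

def Q (r : ℕ → ℕ → Prop) (n s t k : ℕ) : Prop :=
  ∃ l : List ℕ, l.Nodup ∧ l.IsChain r ∧ l.head? = some s ∧ l.getLast? = some t ∧ l.length = k ∧
    ∀ x ∈ l, x < n

def sym (A : ℕ → ℕ → Prop) (a b : ℕ) : Prop := a < b ∧ A a b ∨ b < a ∧ A b a

instance (A : ℕ → ℕ → Prop) [DecidableRel A] : DecidableRel (sym A) := fun a b => by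
  unfold sym; infer_instance

def gr (A : ℕ → ℕ → Prop) (n : ℕ) : SimpleGraph (Fin n) where
  Adj a b := sym A a b
  symm := ⟨fun a b h => Or.symm h⟩
  loopless := ⟨fun a h => by unfold sym at h; omega⟩

theorem Q.rev {A : ℕ → ℕ → Prop} {n s t k : ℕ} (h : Q (sym A) n s t k) : Q (sym A) n t s k := by
  obtain ⟨l, h1, h2, h3, h4, h5, h6⟩ := h
  refine ⟨l.reverse, by simpa using h1, ?_, by simpa using h4, by simpa using h3, by simpa using h5,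
    by simpa using h6⟩
  rw [List.isChain_reverse]
  exact h2.imp fun a b h => Or.symm h

theorem hasP_of {A : ℕ → ℕ → Prop} {n k : ℕ}
    (h : ∀ s t, s < n → t < n → s ≠ t → Q (sym A) n s t k) : HasP (gr A n) k := by
  intro s t hst
  obtain ⟨l, h1, h2, h3, h4, h5, h6⟩ := h s t s.2 t.2 (Fin.val_ne_of_ne hst)
  lift l to List (Fin n) using h6
  refine ⟨l, h1.of_map _, ?_, ?_, ?_, by simpa using h5⟩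
  · rw [List.isChain_map] at h2; exact h2
  · rw [List.head?_map] at h3
    cases hl : l.head? with
    | none => simp [hl] at h3
    | some x => rw [hl] at h3; simp at h3; simp [Fin.ext h3]
  · rw [List.getLast?_map] at h4
    cases hl : l.getLast? with
    | none => simp [hl] at h4
    | some x => rw [hl] at h4; simp at h4; simp [Fin.ext h4]

theorem of_hasP {A : ℕ → ℕ → Prop} {n : ℕ} (hn : 2 ≤ n) (h : HasP (gr A n) 5) :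
    ∃ a x b : ℕ, a < n ∧ x < n ∧ b < n ∧ [0, a, x, b, 1].Nodup ∧ sym A 0 a ∧ sym A a x ∧ sym A x b ∧
      sym A b 1 := by
  obtain ⟨l, h1, h2, h3, h4, h5⟩ := h ⟨0, by omega⟩ ⟨1, by omega⟩ (by simp)
  match l, h5 with
  | [s, a, x, b, t], _ =>
    simp only [List.head?_cons, Option.some.injEq] at h3
    have h4' : t.val = 1 := by
      have : t = ⟨1, Nat.lt_of_succ_le hn⟩ := by simpa using h4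
      rw [this]
    have h3' : s.val = 0 := by rw [h3]
    have h6 := h1.map Fin.val_injective
    simp only [List.map_cons, List.map_nil, h3', h4'] at h6
    refine ⟨a, x, b, a.2, x.2, b.2, h6, ?_⟩
    simp only [List.isChain_cons_cons, List.isChain_singleton, and_true] at h2
    rw [← h3', ← h4']
    exact h2

def A5 (a b : ℕ) : Prop := a = 0 ∨ a = 1 ∧ (b = 2 ∨ b = 4) ∨ a = 2 ∧ b = 3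

def AA (a b : ℕ) : Prop :=
  a ≤ 1 ∧ b ≤ 4 ∨ a = 2 ∧ (b = 3 ∨ b = 5 ∨ b = 6) ∨ a = 3 ∧ (b = 7 ∨ b = 8) ∨ a = 4 ∧ 9 ≤ b ∨ 5 ≤ a

instance : DecidableRel A5 := fun a b => by unfold A5; infer_instance
instance : DecidableRel AA := fun a b => by unfold AA; infer_instance

def cert0 : List (List ℕ) :=
  [[0, 2, 1], [0, 2, 3, 1], [0, 2, 5, 7, 3, 1], [0, 2, 3, 7, 9, 4, 1], [0, 2, 3, 7, 5, 9, 4, 1],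
   [0, 2, 3, 7, 5, 6, 9, 4, 1], [0, 2, 3, 7, 5, 6, 8, 9, 4, 1],
   [0, 2, 3, 7, 5, 6, 8, 9, 10, 4, 1], [0, 1, 2], [0, 1, 3, 2], [0, 3, 7, 5, 2],
   [0, 1, 3, 7, 5, 2], [0, 1, 3, 7, 5, 6, 2], [0, 1, 3, 7, 5, 8, 6, 2],
   [0, 1, 3, 7, 5, 8, 9, 6, 2], [0, 1, 3, 7, 5, 8, 9, 10, 6, 2],
   [0, 1, 3, 7, 5, 8, 9, 4, 10, 6, 2], [0, 1, 3], [0, 1, 2, 3], [0, 2, 5, 7, 3],
   [0, 1, 2, 5, 7, 3], [0, 1, 2, 5, 6, 7, 3], [0, 1, 2, 5, 6, 7, 8, 3],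
   [0, 1, 2, 5, 6, 7, 9, 8, 3], [0, 1, 2, 5, 6, 7, 9, 10, 8, 3],
   [0, 1, 2, 5, 6, 7, 9, 4, 10, 8, 3], [0, 1, 4], [0, 2, 1, 4], [0, 2, 3, 1, 4],
   [0, 1, 2, 5, 9, 4], [0, 1, 2, 3, 7, 9, 4], [0, 1, 2, 3, 7, 5, 9, 4],
   [0, 1, 2, 3, 7, 5, 6, 9, 4], [0, 1, 2, 3, 7, 5, 6, 8, 9, 4],
   [0, 1, 2, 3, 7, 5, 6, 8, 9, 10, 4], [0, 2, 5], [0, 1, 2, 5], [0, 1, 2, 6, 5],
   [0, 1, 2, 3, 7, 5], [0, 1, 2, 3, 7, 6, 5], [0, 1, 2, 3, 7, 6, 8, 5],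
   [0, 1, 2, 3, 7, 6, 8, 9, 5], [0, 1, 2, 3, 7, 6, 8, 9, 10, 5],
   [0, 1, 2, 3, 7, 6, 8, 9, 4, 10, 5], [0, 2, 6], [0, 1, 2, 6], [0, 1, 2, 5, 6],
   [0, 1, 2, 3, 7, 6], [0, 1, 2, 3, 7, 5, 6], [0, 1, 2, 3, 7, 5, 8, 6],
   [0, 1, 2, 3, 7, 5, 8, 9, 6], [0, 1, 2, 3, 7, 5, 8, 9, 10, 6],
   [0, 1, 2, 3, 7, 5, 8, 9, 4, 10, 6], [0, 3, 7], [0, 1, 3, 7], [0, 1, 2, 3, 7],
   [0, 1, 2, 3, 8, 7], [0, 1, 2, 3, 8, 5, 7], [0, 1, 2, 3, 8, 5, 6, 7],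
   [0, 1, 2, 3, 8, 5, 6, 9, 7], [0, 1, 2, 3, 8, 5, 6, 9, 10, 7],
   [0, 1, 2, 3, 8, 5, 6, 9, 4, 10, 7], [0, 3, 8], [0, 1, 3, 8], [0, 1, 2, 3, 8],
   [0, 1, 2, 3, 7, 8], [0, 1, 2, 3, 7, 5, 8], [0, 1, 2, 3, 7, 5, 6, 8],
   [0, 1, 2, 3, 7, 5, 6, 9, 8], [0, 1, 2, 3, 7, 5, 6, 9, 10, 8],
   [0, 1, 2, 3, 7, 5, 6, 9, 4, 10, 8], [0, 4, 9], [0, 1, 4, 9], [0, 1, 2, 5, 9],
   [0, 1, 2, 3, 7, 9], [0, 1, 2, 3, 7, 5, 9], [0, 1, 2, 3, 7, 5, 6, 9],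
   [0, 1, 2, 3, 7, 5, 6, 8, 9], [0, 1, 2, 3, 7, 5, 6, 8, 10, 9],
   [0, 1, 2, 3, 7, 5, 6, 8, 10, 4, 9], [0, 4, 10], [0, 1, 4, 10], [0, 1, 2, 5, 10],
   [0, 1, 2, 3, 7, 10], [0, 1, 2, 3, 7, 5, 10], [0, 1, 2, 3, 7, 5, 6, 10],
   [0, 1, 2, 3, 7, 5, 6, 8, 10], [0, 1, 2, 3, 7, 5, 6, 8, 9, 10],
   [0, 1, 2, 3, 7, 5, 6, 8, 9, 4, 10]]

def cert1 : List (List ℕ) :=
  [[1, 0, 2], [1, 0, 3, 2], [1, 3, 7, 5, 2], [1, 0, 3, 7, 5, 2], [1, 0, 3, 7, 5, 6, 2],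
   [1, 0, 3, 7, 5, 8, 6, 2], [1, 0, 3, 7, 5, 8, 9, 6, 2], [1, 0, 3, 7, 5, 8, 9, 10, 6, 2],
   [1, 0, 3, 7, 5, 8, 9, 4, 10, 6, 2], [1, 0, 3], [1, 0, 2, 3], [1, 2, 5, 7, 3],
   [1, 0, 2, 5, 7, 3], [1, 0, 2, 5, 6, 7, 3], [1, 0, 2, 5, 6, 7, 8, 3],
   [1, 0, 2, 5, 6, 7, 9, 8, 3], [1, 0, 2, 5, 6, 7, 9, 10, 8, 3],
   [1, 0, 2, 5, 6, 7, 9, 4, 10, 8, 3], [1, 0, 4], [1, 2, 0, 4], [1, 2, 3, 0, 4],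
   [1, 0, 2, 5, 9, 4], [1, 0, 2, 3, 7, 9, 4], [1, 0, 2, 3, 7, 5, 9, 4],
   [1, 0, 2, 3, 7, 5, 6, 9, 4], [1, 0, 2, 3, 7, 5, 6, 8, 9, 4],
   [1, 0, 2, 3, 7, 5, 6, 8, 9, 10, 4], [1, 2, 5], [1, 0, 2, 5], [1, 0, 2, 6, 5],
   [1, 0, 2, 3, 7, 5], [1, 0, 2, 3, 7, 6, 5], [1, 0, 2, 3, 7, 6, 8, 5],
   [1, 0, 2, 3, 7, 6, 8, 9, 5], [1, 0, 2, 3, 7, 6, 8, 9, 10, 5],
   [1, 0, 2, 3, 7, 6, 8, 9, 4, 10, 5], [1, 2, 6], [1, 0, 2, 6], [1, 0, 2, 5, 6],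
   [1, 0, 2, 3, 7, 6], [1, 0, 2, 3, 7, 5, 6], [1, 0, 2, 3, 7, 5, 8, 6],
   [1, 0, 2, 3, 7, 5, 8, 9, 6], [1, 0, 2, 3, 7, 5, 8, 9, 10, 6],
   [1, 0, 2, 3, 7, 5, 8, 9, 4, 10, 6], [1, 3, 7], [1, 0, 3, 7], [1, 0, 2, 3, 7],
   [1, 0, 2, 3, 8, 7], [1, 0, 2, 3, 8, 5, 7], [1, 0, 2, 3, 8, 5, 6, 7],
   [1, 0, 2, 3, 8, 5, 6, 9, 7], [1, 0, 2, 3, 8, 5, 6, 9, 10, 7],
   [1, 0, 2, 3, 8, 5, 6, 9, 4, 10, 7], [1, 3, 8], [1, 0, 3, 8], [1, 0, 2, 3, 8],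
   [1, 0, 2, 3, 7, 8], [1, 0, 2, 3, 7, 5, 8], [1, 0, 2, 3, 7, 5, 6, 8],
   [1, 0, 2, 3, 7, 5, 6, 9, 8], [1, 0, 2, 3, 7, 5, 6, 9, 10, 8],
   [1, 0, 2, 3, 7, 5, 6, 9, 4, 10, 8], [1, 4, 9], [1, 0, 4, 9], [1, 0, 2, 5, 9],
   [1, 0, 2, 3, 7, 9], [1, 0, 2, 3, 7, 5, 9], [1, 0, 2, 3, 7, 5, 6, 9],
   [1, 0, 2, 3, 7, 5, 6, 8, 9], [1, 0, 2, 3, 7, 5, 6, 8, 10, 9],
   [1, 0, 2, 3, 7, 5, 6, 8, 10, 4, 9], [1, 4, 10], [1, 0, 4, 10], [1, 0, 2, 5, 10],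
   [1, 0, 2, 3, 7, 10], [1, 0, 2, 3, 7, 5, 10], [1, 0, 2, 3, 7, 5, 6, 10],
   [1, 0, 2, 3, 7, 5, 6, 8, 10], [1, 0, 2, 3, 7, 5, 6, 8, 9, 10],
   [1, 0, 2, 3, 7, 5, 6, 8, 9, 4, 10]]

def cert2 : List (List ℕ) :=
  [[2, 0, 3], [2, 0, 1, 3], [2, 0, 4, 1, 3], [2, 0, 4, 9, 7, 3], [2, 0, 1, 4, 9, 7, 3],
   [2, 0, 1, 4, 9, 5, 7, 3], [2, 0, 1, 4, 9, 5, 6, 7, 3], [2, 0, 1, 4, 9, 5, 6, 7, 8, 3],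
   [2, 0, 1, 4, 9, 5, 6, 7, 10, 8, 3], [2, 0, 4], [2, 0, 1, 4], [2, 0, 3, 1, 4],
   [2, 0, 3, 7, 9, 4], [2, 0, 1, 3, 7, 9, 4], [2, 0, 1, 3, 7, 5, 9, 4],
   [2, 0, 1, 3, 7, 5, 6, 9, 4], [2, 0, 1, 3, 7, 5, 6, 8, 9, 4],
   [2, 0, 1, 3, 7, 5, 6, 8, 9, 10, 4], [2, 6, 5], [2, 3, 7, 5], [2, 0, 3, 7, 5],
   [2, 0, 1, 3, 7, 5], [2, 0, 1, 3, 7, 6, 5], [2, 0, 1, 3, 7, 6, 8, 5],
   [2, 0, 1, 3, 7, 6, 8, 9, 5], [2, 0, 1, 3, 7, 6, 8, 9, 10, 5],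
   [2, 0, 1, 3, 7, 6, 8, 9, 4, 10, 5], [2, 5, 6], [2, 3, 7, 6], [2, 0, 3, 7, 6],
   [2, 0, 1, 3, 7, 6], [2, 0, 1, 3, 7, 5, 6], [2, 0, 1, 3, 7, 5, 8, 6],
   [2, 0, 1, 3, 7, 5, 8, 9, 6], [2, 0, 1, 3, 7, 5, 8, 9, 10, 6],
   [2, 0, 1, 3, 7, 5, 8, 9, 4, 10, 6], [2, 3, 7], [2, 0, 3, 7], [2, 0, 1, 3, 7],
   [2, 0, 1, 3, 8, 7], [2, 0, 1, 3, 8, 5, 7], [2, 0, 1, 3, 8, 5, 6, 7],
   [2, 0, 1, 3, 8, 5, 6, 9, 7], [2, 0, 1, 3, 8, 5, 6, 9, 10, 7],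
   [2, 0, 1, 3, 8, 5, 6, 9, 4, 10, 7], [2, 3, 8], [2, 0, 3, 8], [2, 0, 1, 3, 8],
   [2, 0, 1, 3, 7, 8], [2, 0, 1, 3, 7, 5, 8], [2, 0, 1, 3, 7, 5, 6, 8],
   [2, 0, 1, 3, 7, 5, 6, 9, 8], [2, 0, 1, 3, 7, 5, 6, 9, 10, 8],
   [2, 0, 1, 3, 7, 5, 6, 9, 4, 10, 8], [2, 5, 9], [2, 0, 4, 9], [2, 0, 1, 4, 9],
   [2, 0, 1, 3, 7, 9], [2, 0, 1, 3, 7, 5, 9], [2, 0, 1, 3, 7, 5, 6, 9],
   [2, 0, 1, 3, 7, 5, 6, 8, 9], [2, 0, 1, 3, 7, 5, 6, 8, 10, 9],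
   [2, 0, 1, 3, 7, 5, 6, 8, 10, 4, 9], [2, 5, 10], [2, 0, 4, 10], [2, 0, 1, 4, 10],
   [2, 0, 1, 3, 7, 10], [2, 0, 1, 3, 7, 5, 10], [2, 0, 1, 3, 7, 5, 6, 10],
   [2, 0, 1, 3, 7, 5, 6, 8, 10], [2, 0, 1, 3, 7, 5, 6, 8, 9, 10],
   [2, 0, 1, 3, 7, 5, 6, 8, 9, 4, 10]]

def cert3 : List (List ℕ) :=
  [[3, 0, 4], [3, 0, 1, 4], [3, 0, 2, 1, 4], [3, 0, 2, 5, 9, 4], [3, 0, 1, 2, 5, 9, 4],
   [3, 0, 1, 2, 5, 6, 9, 4], [3, 0, 1, 2, 5, 6, 7, 9, 4], [3, 0, 1, 2, 5, 6, 7, 8, 9, 4],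
   [3, 0, 1, 2, 5, 6, 7, 8, 9, 10, 4], [3, 2, 5], [3, 0, 2, 5], [3, 0, 1, 2, 5],
   [3, 0, 1, 2, 6, 5], [3, 0, 1, 2, 6, 7, 5], [3, 0, 1, 2, 6, 7, 8, 5],
   [3, 0, 1, 2, 6, 7, 8, 9, 5], [3, 0, 1, 2, 6, 7, 8, 9, 10, 5],
   [3, 0, 1, 2, 6, 7, 8, 9, 4, 10, 5], [3, 2, 6], [3, 0, 2, 6], [3, 0, 1, 2, 6],
   [3, 0, 1, 2, 5, 6], [3, 0, 1, 2, 5, 7, 6], [3, 0, 1, 2, 5, 7, 8, 6],
   [3, 0, 1, 2, 5, 7, 8, 9, 6], [3, 0, 1, 2, 5, 7, 8, 9, 10, 6],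
   [3, 0, 1, 2, 5, 7, 8, 9, 4, 10, 6], [3, 8, 7], [3, 2, 5, 7], [3, 0, 2, 5, 7],
   [3, 0, 1, 2, 5, 7], [3, 0, 1, 2, 5, 6, 7], [3, 0, 1, 2, 5, 6, 8, 7],
   [3, 0, 1, 2, 5, 6, 8, 9, 7], [3, 0, 1, 2, 5, 6, 8, 9, 10, 7],
   [3, 0, 1, 2, 5, 6, 8, 9, 4, 10, 7], [3, 7, 8], [3, 2, 5, 8], [3, 0, 2, 5, 8],
   [3, 0, 1, 2, 5, 8], [3, 0, 1, 2, 5, 6, 8], [3, 0, 1, 2, 5, 6, 7, 8],
   [3, 0, 1, 2, 5, 6, 7, 9, 8], [3, 0, 1, 2, 5, 6, 7, 9, 10, 8],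
   [3, 0, 1, 2, 5, 6, 7, 9, 4, 10, 8], [3, 7, 9], [3, 0, 4, 9], [3, 0, 1, 4, 9],
   [3, 0, 1, 2, 5, 9], [3, 0, 1, 2, 5, 6, 9], [3, 0, 1, 2, 5, 6, 7, 9],
   [3, 0, 1, 2, 5, 6, 7, 8, 9], [3, 0, 1, 2, 5, 6, 7, 8, 10, 9],
   [3, 0, 1, 2, 5, 6, 7, 8, 10, 4, 9], [3, 7, 10], [3, 0, 4, 10], [3, 0, 1, 4, 10],
   [3, 0, 1, 2, 5, 10], [3, 0, 1, 2, 5, 6, 10], [3, 0, 1, 2, 5, 6, 7, 10],
   [3, 0, 1, 2, 5, 6, 7, 8, 10], [3, 0, 1, 2, 5, 6, 7, 8, 9, 10],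
   [3, 0, 1, 2, 5, 6, 7, 8, 9, 4, 10]]

def cert4 : List (List ℕ) :=
  [[4, 9, 5], [4, 0, 2, 5], [4, 0, 1, 2, 5], [4, 0, 1, 2, 6, 5], [4, 0, 1, 2, 3, 7, 5],
   [4, 0, 1, 2, 3, 7, 6, 5], [4, 0, 1, 2, 3, 7, 6, 8, 5], [4, 0, 1, 2, 3, 7, 6, 8, 9, 5],
   [4, 0, 1, 2, 3, 7, 6, 8, 9, 10, 5], [4, 9, 6], [4, 0, 2, 6], [4, 0, 1, 2, 6],
   [4, 0, 1, 2, 5, 6], [4, 0, 1, 2, 3, 7, 6], [4, 0, 1, 2, 3, 7, 5, 6],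
   [4, 0, 1, 2, 3, 7, 5, 8, 6], [4, 0, 1, 2, 3, 7, 5, 8, 9, 6],
   [4, 0, 1, 2, 3, 7, 5, 8, 9, 10, 6], [4, 9, 7], [4, 0, 3, 7], [4, 0, 1, 3, 7],
   [4, 0, 1, 2, 3, 7], [4, 0, 1, 2, 3, 8, 7], [4, 0, 1, 2, 3, 8, 5, 7],
   [4, 0, 1, 2, 3, 8, 5, 6, 7], [4, 0, 1, 2, 3, 8, 5, 6, 9, 7],
   [4, 0, 1, 2, 3, 8, 5, 6, 9, 10, 7], [4, 9, 8], [4, 0, 3, 8], [4, 0, 1, 3, 8],
   [4, 0, 1, 2, 3, 8], [4, 0, 1, 2, 3, 7, 8], [4, 0, 1, 2, 3, 7, 5, 8],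
   [4, 0, 1, 2, 3, 7, 5, 6, 8], [4, 0, 1, 2, 3, 7, 5, 6, 9, 8],
   [4, 0, 1, 2, 3, 7, 5, 6, 9, 10, 8], [4, 10, 9], [4, 10, 5, 9], [4, 0, 2, 5, 9],
   [4, 0, 1, 2, 5, 9], [4, 0, 1, 2, 3, 7, 9], [4, 0, 1, 2, 3, 7, 5, 9],
   [4, 0, 1, 2, 3, 7, 5, 6, 9], [4, 0, 1, 2, 3, 7, 5, 6, 8, 9],
   [4, 0, 1, 2, 3, 7, 5, 6, 8, 10, 9], [4, 9, 10], [4, 9, 5, 10], [4, 0, 2, 5, 10],
   [4, 0, 1, 2, 5, 10], [4, 0, 1, 2, 3, 7, 10], [4, 0, 1, 2, 3, 7, 5, 10],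
   [4, 0, 1, 2, 3, 7, 5, 6, 10], [4, 0, 1, 2, 3, 7, 5, 6, 8, 10],
   [4, 0, 1, 2, 3, 7, 5, 6, 8, 9, 10]]

def cert5 : List (List ℕ) :=
  [[5, 2, 6], [5, 7, 8, 6], [5, 2, 3, 7, 6], [5, 2, 0, 3, 7, 6], [5, 2, 0, 1, 3, 7, 6],
   [5, 2, 0, 1, 3, 7, 8, 6], [5, 2, 0, 1, 3, 7, 8, 9, 6], [5, 2, 0, 1, 3, 7, 8, 9, 10, 6],
   [5, 2, 0, 1, 3, 7, 8, 9, 4, 10, 6], [5, 6, 7], [5, 2, 3, 7], [5, 2, 0, 3, 7],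
   [5, 2, 0, 1, 3, 7], [5, 2, 0, 1, 3, 8, 7], [5, 2, 0, 1, 3, 8, 6, 7],
   [5, 2, 0, 1, 3, 8, 6, 9, 7], [5, 2, 0, 1, 3, 8, 6, 9, 10, 7],
   [5, 2, 0, 1, 3, 8, 6, 9, 4, 10, 7], [5, 6, 8], [5, 2, 3, 8], [5, 2, 0, 3, 8],
   [5, 2, 0, 1, 3, 8], [5, 2, 0, 1, 3, 7, 8], [5, 2, 0, 1, 3, 7, 6, 8],
   [5, 2, 0, 1, 3, 7, 6, 9, 8], [5, 2, 0, 1, 3, 7, 6, 9, 10, 8],
   [5, 2, 0, 1, 3, 7, 6, 9, 4, 10, 8], [5, 6, 9], [5, 2, 6, 9], [5, 2, 0, 4, 9],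
   [5, 2, 0, 1, 4, 9], [5, 2, 0, 1, 3, 7, 9], [5, 2, 0, 1, 3, 7, 6, 9],
   [5, 2, 0, 1, 3, 7, 6, 8, 9], [5, 2, 0, 1, 3, 7, 6, 8, 10, 9],
   [5, 2, 0, 1, 3, 7, 6, 8, 10, 4, 9], [5, 6, 10], [5, 2, 6, 10], [5, 2, 0, 4, 10],
   [5, 2, 0, 1, 4, 10], [5, 2, 0, 1, 3, 7, 10], [5, 2, 0, 1, 3, 7, 6, 10],
   [5, 2, 0, 1, 3, 7, 6, 8, 10], [5, 2, 0, 1, 3, 7, 6, 8, 9, 10],
   [5, 2, 0, 1, 3, 7, 6, 8, 9, 4, 10]]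

def cert6 : List (List ℕ) :=
  [[6, 5, 7], [6, 2, 3, 7], [6, 2, 0, 3, 7], [6, 2, 0, 1, 3, 7], [6, 2, 0, 1, 3, 8, 7],
   [6, 2, 0, 1, 3, 8, 5, 7], [6, 2, 0, 1, 3, 8, 5, 9, 7], [6, 2, 0, 1, 3, 8, 5, 9, 10, 7],
   [6, 2, 0, 1, 3, 8, 5, 9, 4, 10, 7], [6, 5, 8], [6, 2, 3, 8], [6, 2, 0, 3, 8],
   [6, 2, 0, 1, 3, 8], [6, 2, 0, 1, 3, 7, 8], [6, 2, 0, 1, 3, 7, 5, 8],
   [6, 2, 0, 1, 3, 7, 5, 9, 8], [6, 2, 0, 1, 3, 7, 5, 9, 10, 8],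
   [6, 2, 0, 1, 3, 7, 5, 9, 4, 10, 8], [6, 5, 9], [6, 2, 5, 9], [6, 2, 0, 4, 9],
   [6, 2, 0, 1, 4, 9], [6, 2, 0, 1, 3, 7, 9], [6, 2, 0, 1, 3, 7, 5, 9],
   [6, 2, 0, 1, 3, 7, 5, 8, 9], [6, 2, 0, 1, 3, 7, 5, 8, 10, 9],
   [6, 2, 0, 1, 3, 7, 5, 8, 10, 4, 9], [6, 5, 10], [6, 2, 5, 10], [6, 2, 0, 4, 10],
   [6, 2, 0, 1, 4, 10], [6, 2, 0, 1, 3, 7, 10], [6, 2, 0, 1, 3, 7, 5, 10],
   [6, 2, 0, 1, 3, 7, 5, 8, 10], [6, 2, 0, 1, 3, 7, 5, 8, 9, 10],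
   [6, 2, 0, 1, 3, 7, 5, 8, 9, 4, 10]]

def cert7 : List (List ℕ) :=
  [[7, 3, 8], [7, 5, 6, 8], [7, 3, 2, 5, 8], [7, 3, 0, 2, 5, 8], [7, 3, 0, 1, 2, 5, 8],
   [7, 3, 0, 1, 2, 5, 6, 8], [7, 3, 0, 1, 2, 5, 6, 9, 8], [7, 3, 0, 1, 2, 5, 6, 9, 10, 8],
   [7, 3, 0, 1, 2, 5, 6, 9, 4, 10, 8], [7, 5, 9], [7, 3, 8, 9], [7, 3, 0, 4, 9],
   [7, 3, 0, 1, 4, 9], [7, 3, 0, 1, 2, 5, 9], [7, 3, 0, 1, 2, 5, 6, 9],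
   [7, 3, 0, 1, 2, 5, 6, 8, 9], [7, 3, 0, 1, 2, 5, 6, 8, 10, 9],
   [7, 3, 0, 1, 2, 5, 6, 8, 10, 4, 9], [7, 5, 10], [7, 3, 8, 10], [7, 3, 0, 4, 10],
   [7, 3, 0, 1, 4, 10], [7, 3, 0, 1, 2, 5, 10], [7, 3, 0, 1, 2, 5, 6, 10],
   [7, 3, 0, 1, 2, 5, 6, 8, 10], [7, 3, 0, 1, 2, 5, 6, 8, 9, 10],
   [7, 3, 0, 1, 2, 5, 6, 8, 9, 4, 10]]

def cert8 : List (List ℕ) :=
  [[8, 5, 9], [8, 3, 7, 9], [8, 3, 0, 4, 9], [8, 3, 0, 1, 4, 9], [8, 3, 0, 1, 2, 5, 9],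
   [8, 3, 0, 1, 2, 5, 6, 9], [8, 3, 0, 1, 2, 5, 6, 7, 9], [8, 3, 0, 1, 2, 5, 6, 7, 10, 9],
   [8, 3, 0, 1, 2, 5, 6, 7, 10, 4, 9], [8, 5, 10], [8, 3, 7, 10], [8, 3, 0, 4, 10],
   [8, 3, 0, 1, 4, 10], [8, 3, 0, 1, 2, 5, 10], [8, 3, 0, 1, 2, 5, 6, 10],
   [8, 3, 0, 1, 2, 5, 6, 7, 10], [8, 3, 0, 1, 2, 5, 6, 7, 9, 10],
   [8, 3, 0, 1, 2, 5, 6, 7, 9, 4, 10]]

def cert9 : List (List ℕ) :=
  [[9, 4, 10], [9, 5, 6, 10], [9, 5, 2, 6, 10], [9, 4, 0, 2, 5, 10], [9, 4, 0, 1, 2, 5, 10],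
   [9, 4, 0, 1, 2, 3, 7, 10], [9, 4, 0, 1, 2, 3, 7, 5, 10], [9, 4, 0, 1, 2, 3, 7, 5, 6, 10],
   [9, 4, 0, 1, 2, 3, 7, 5, 6, 8, 10]]

def cert (s : ℕ) : List (List ℕ) :=
  [cert0, cert1, cert2, cert3, cert4, cert5, cert6, cert7, cert8, cert9].getD s []

def certS : List (List ℕ) :=
  [[0, 2, 1], [0, 3, 2, 1], [0, 1, 2], [0, 4, 1, 2], [0, 2, 3], [0, 1, 2, 3], [0, 1, 4],
   [0, 2, 1, 4], [1, 0, 2], [1, 0, 3, 2], [1, 0, 3], [1, 0, 2, 3], [1, 0, 4], [1, 2, 0, 4],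
   [2, 0, 3], [2, 1, 0, 3], [2, 0, 4], [2, 0, 1, 4], [3, 0, 4], [3, 0, 1, 4]]

def ok (A : ℕ → ℕ → Prop) (n s t k : ℕ) (l : List ℕ) : Prop :=
  l.getLast? = some t ∧ l.length = k ∧ l.head? = some s ∧ l.Nodup ∧ l.IsChain (sym A) ∧
    ∀ x ∈ l, x < n

instance (A : ℕ → ℕ → Prop) [DecidableRel A] (n s t k : ℕ) (l : List ℕ) :
    Decidable (ok A n s t k l) := by
  unfold ok; infer_instance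

def ex (A : ℕ → ℕ → Prop) (n s t k : ℕ) (c : List (List ℕ)) : Prop := ∃ l ∈ c, ok A n s t k l

instance (A : ℕ → ℕ → Prop) [DecidableRel A] (n s t k : ℕ) (c : List (List ℕ)) :
    Decidable (ex A n s t k c) := by
  unfold ex; infer_instance

theorem base5 : ∀ s < 5, ∀ t < 5, ∀ k < 5, (s < t ∧ 3 ≤ k) → ex A5 5 s t k certS := by
  decide +kernel

def cnd (s t k : ℕ) : Prop := s < t ∧ 3 ≤ k ∧ ¬ (k = 5 ∧ s ≤ 1 ∧ t ≤ 1)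

instance (s t k : ℕ) : Decidable (cnd s t k) := by
  unfold cnd; infer_instance

theorem base11 : ∀ s < 11, ∀ t < 11, ∀ k < 12, cnd s t k → ex AA 11 s t k (cert s) := by
  decide +kernel

theorem five (k : ℕ) (h3 : 3 ≤ k) (h5 : k < 5) : HasP (gr A5 5) k := by
  have key : ∀ s t, s < 5 → t < 5 → s < t → Q (sym A5) 5 s t k := by
    intro s t hs ht hst
    obtain ⟨l, -, h1, h2, h3, h4, h5, h6⟩ := base5 s hs t ht k h5 ⟨hst, h3⟩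
    exact ⟨l, h4, h5, h3, h1, h2, h6⟩
  refine hasP_of fun s t hs ht hst => ?_
  rcases lt_or_gt_of_ne hst with h | h
  · exact key s t hs ht h
  · exact (key t s ht hs h).rev

theorem five_not : ¬ HasP (gr A5 5) 5 := by
  intro h
  obtain ⟨a, x, b, h1, h2, h3, h4, h5, h6, h7, h8⟩ := of_hasP (by norm_num) h
  simp only [List.nodup_cons, List.mem_cons, List.not_mem_nil, sym, A5] at *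
  omega

theorem big_not {n : ℕ} (hn : 2 ≤ n) : ¬ HasP (gr AA n) 5 := by
  intro h
  obtain ⟨a, x, b, h1, h2, h3, h4, h5, h6, h7, h8⟩ := of_hasP hn h
  simp only [List.nodup_cons, List.mem_cons, List.not_mem_nil, sym, AA] at *
  omega

theorem twin {z z' x : ℕ} (hz : 9 ≤ z) (hz' : 9 ≤ z') (hx : x ≠ z') (h : sym AA z x) :
    sym AA z' x := by
  simp only [sym, AA] at *
  omega

theorem swapQ {n w s t k : ℕ} (hw : 9 ≤ w) (hwn : w ≤ n) (h : Q (sym AA) (n + 1) s t k) :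
    Q (sym AA) (n + 1) (Equiv.swap w n s) (Equiv.swap w n t) k := by
  obtain ⟨l, h1, h2, h3, h4, h5, h6⟩ := h
  refine ⟨l.map (Equiv.swap w n), h1.map (Equiv.injective _), ?_, by simp [h3], by simp [h4],
    by simpa using h5, ?_⟩
  · rw [List.isChain_map]
    refine h2.imp fun a b hab => ?_
    simp only [Equiv.swap_apply_def, sym, AA] at *
    split_ifs <;> omega
  · intro x hx
    obtain ⟨y, hy, rfl⟩ := List.mem_map.1 hx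
    have := h6 y hy
    simp only [Equiv.swap_apply_def]
    split_ifs <;> omega

theorem grow {n s t : ℕ} (hn : 11 ≤ n) (h : Q (sym AA) n s t n) :
    Q (sym AA) (n + 1) s t (n + 1) := by
  obtain ⟨l, h1, h2, h3, h4, h5, h6⟩ := h
  have hall : ∀ z < n, z ∈ l := by
    have : l.toFinset = Finset.range n := by
      apply Finset.eq_of_subset_of_card_le
      · intro x hx; simpa using h6 x (by simpa using hx)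
      · rw [List.toFinset_card_of_nodup h1, h5]; simp
    intro z hz
    rw [← List.mem_toFinset, this]; simpa using hz
  obtain ⟨z, z1, z2, z3⟩ : ∃ z, 9 ≤ z ∧ z < n ∧ z ≠ t :=
    ⟨if t = 9 then 10 else 9, by split_ifs <;> omega, by split_ifs <;> omega,
      by split_ifs <;> omega⟩
  obtain ⟨l1, l2, rfl⟩ := List.append_of_mem (hall z z2)
  have hnl : n ∉ l1 ++ z :: l2 := fun hh => lt_irrefl _ (h6 n hh)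
  cases l2 with
  | nil => simp at h4; exact absurd h4 z3
  | cons y l2 =>
    refine ⟨l1 ++ z :: n :: y :: l2, ?_, ?_, ?_, ?_, ?_, ?_⟩
    · have : (l1 ++ z :: n :: y :: l2).Perm (n :: (l1 ++ z :: y :: l2)) := by
        have := List.perm_middle (a := n) (l₁ := l1 ++ [z]) (l₂ := y :: l2)
        simpa using this
      rw [this.nodup_iff, List.nodup_cons]
      exact ⟨hnl, h1⟩
    · rw [List.isChain_split] at h2 ⊢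
      refine ⟨h2.1, ?_⟩
      have h7 := h2.2
      rw [List.isChain_cons_cons] at h7
      rw [List.isChain_cons_cons, List.isChain_cons_cons]
      refine ⟨?_, twin z1 (by omega) ?_ h7.1, h7.2⟩
      · simp only [sym, AA]; omega
      · rintro rfl; exact hnl (by simp)
    · cases l1 <;> simpa using h3
    · simpa using h4
    · simp at h5 ⊢; omega
    · intro x hx
      have := h6 x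
      simp only [List.mem_append, List.mem_cons] at hx this
      rcases hx with h | h | h | h
      · have := this (Or.inl h); omega
      · omega
      · omega
      · have := this (Or.inr (Or.inr h)); omega

theorem bigQ (n : ℕ) (hn : 11 ≤ n) : ∀ s t, s < n → t < n → s ≠ t → ∀ k, 3 ≤ k → k ≤ n →
    ¬ (k = 5 ∧ s ≤ 1 ∧ t ≤ 1) → Q (sym AA) n s t k := by
  induction n, hn using Nat.le_induction with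
  | base =>
    have key : ∀ s t, s < 11 → t < 11 → s < t → ∀ k, 3 ≤ k → k ≤ 11 →
        ¬ (k = 5 ∧ s ≤ 1 ∧ t ≤ 1) → Q (sym AA) 11 s t k := by
      intro s t hs ht hst k h3 h11 h5
      obtain ⟨l, -, h1, h2, h3, h4, h5, h6⟩ := base11 s hs t ht k (by omega) ⟨hst, h3, h5⟩
      exact ⟨l, h4, h5, h3, h1, h2, h6⟩
    intro s t hs ht hst k h3 h11 h5
    rcases lt_or_gt_of_ne hst with h | h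
    · exact key s t hs ht h k h3 h11 h5
    · exact (key t s ht hs h k h3 h11 (by omega)).rev
  | succ n hn ih =>
    have key : ∀ s t, s < n → t < n → s ≠ t → ∀ k, 3 ≤ k → k ≤ n + 1 →
        ¬ (k = 5 ∧ s ≤ 1 ∧ t ≤ 1) → Q (sym AA) (n + 1) s t k := by
      intro s t hs ht hst k h3 hk h5
      rcases Nat.lt_or_eq_of_le hk with h | rfl
      · obtain ⟨l, h1, h2, h3, h4, h5, h6⟩ := ih s t hs ht hst k h3 (by omega) h5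
        exact ⟨l, h1, h2, h3, h4, h5, fun x hx => Nat.lt_succ_of_lt (h6 x hx)⟩
      · exact grow hn (ih s t hs ht hst n (by omega) le_rfl (by omega))
    intro s t hs ht hst k h3 hk h5
    obtain ⟨w, w1, w2, w3, w4⟩ : ∃ w, 9 ≤ w ∧ w ≤ n ∧ w ≠ s ∧ w ≠ t :=
      ⟨if s ≠ 9 ∧ t ≠ 9 then 9 else if s ≠ 10 ∧ t ≠ 10 then 10 else 11, by split_ifs <;> omega,
        by split_ifs <;> omega, by split_ifs <;> omega, by split_ifs <;> omega⟩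
    have := swapQ w1 w2 (key (Equiv.swap w n s) (Equiv.swap w n t)
      (by simp only [Equiv.swap_apply_def]; split_ifs <;> omega)
      (by simp only [Equiv.swap_apply_def]; split_ifs <;> omega)
      ((Equiv.injective _).ne hst) k h3 hk
      (by simp only [Equiv.swap_apply_def]; split_ifs <;> omega))
    simpa using this

theorem big {n : ℕ} (hn : 11 ≤ n) (k : ℕ) (h3 : 3 ≤ k) (hk : k ≤ n) (h5 : k ≠ 5) :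
    HasP (gr AA n) k :=
  hasP_of fun s t hs ht hst => bigQ n hn s t hs ht hst k h3 hk (by omega)

end Pool.Agent.H.MP_ccc55c_co
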