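import Mathlib

set_option autoImplicit false

namespace Pool.Agent.H.MP_ccc55c_co

/-- property `P_i`: any two distinct vertices are the ends of a path with exactly `i` vertices. -/
def HasP {n : ℕ} (G : SimpleGraph (Fin n)) (i : ℕ) : Prop :=
  ∀ s t : Fin n, s ≠ t → ∃ l : List (Fin n), l.Nodup ∧ l.IsChain G.Adj ∧
    l.head? = some s ∧ l.getLast? = some t ∧ l.length = i

def closure (n : ℕ) (S : Set ℕ) : Set ℕ :=
  {j | 2 ≤ j ∧ j ≤ n ∧ ∀ G : SimpleGraph (Fin n), (∀ i ∈ S, HasP G i) → HasP G j}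

def J (n : ℕ) : Set ℕ :=
  {j | 3 ≤ j ∧ j ≤ n ∧ ∀ S : Set ℕ, S ⊆ Set.Icc 3 n → j ∈ closure n S → j ∈ S}

end Pool.Agent.H.MP_ccc55c_co
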